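import Pool.Agent.Helper23.KU.Final

/-!
# KR, piece L: countably many exceptional radii
-/

set_option autoImplicit false

namespace Pool.Agent.Helper23.KU

open Polynomial Filter Topology Metric MeasureTheory Set
open Pool.Agent.Helper23.KB (Sph Dom KF Ext sq area_series ms_series kf_le kf_dn kf_nonneg int_cont)

/-- L. countably many exceptional radii, from the rationality and the injectivity -/
theorem exc_countable_of
    (rat : ∀ {c : ℝ}, 0 < c → c < 1 → ∀ {f g : ℂ → ℂ}, Ext c f g →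
      ∃ p q : ℂ[X], q ≠ 0 ∧ ∀ z ∈ ball (0 : ℂ) 1, q.eval z * f z = p.eval z * g z)
    (inj : ∀ {c c' : ℝ}, 0 < c → c < c' → c' < 1 → KF c' < 1 → KF c = KF c' →
      ∀ {f g : ℂ → ℂ}, Ext c f g → False) :
    {c : ℝ | 0 < c ∧ c < 1 ∧ KF c < 1 ∧ ∃ f g₁ g₂ : ℂ → ℂ, Ext c f g₁ ∧ Ext c f g₂ ∧
      ¬ ∃ α : ℝ, ∀ z ∈ ball (0 : ℂ) 1, g₂ z = Complex.exp (α * Complex.I) * g₁ z}.Countable := by
  have hT : (Set.range fun p : ℕ × ℕ => Real.sqrt ((p.1 : ℝ) / (p.1 + p.2))).Countable :=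
    Set.countable_range _
  refine Set.MapsTo.countable_of_injOn (f := KF) ?_ ?_ hT
  · rintro c ⟨h0, h1, hF, f, g₁, g₂, E₁, E₂, hne⟩
    obtain ⟨p₁, q₁, hq₁, r₁⟩ := rat h0 h1 E₁
    obtain ⟨p₂, q₂, hq₂, r₂⟩ := rat h0 h1 E₂
    rcases final h0 h1 hF E₁ E₂ hq₁ hq₂ r₁ r₂ with ⟨κ, hκ, hg⟩ | ⟨z₀, k, m, -, hk, hm, he, -⟩
    · exfalso
      refine hne ⟨Complex.arg κ, fun z hz => ?_⟩
      have h2 := Complex.norm_mul_exp_arg_mul_I κ
      rw [hκ, Complex.ofReal_one, one_mul] at h2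
      rw [h2]
      exact hg z hz
    · refine ⟨(k, m), ?_⟩
      have hk' : (0 : ℝ) < (k : ℝ) + m := by
        have : (1 : ℝ) ≤ k := by exact_mod_cast hk
        positivity
      have h2 : (k : ℝ) / (k + m) = KF c ^ 2 := by
        rw [div_eq_iff hk'.ne']
        exact he.symm
      show Real.sqrt ((k : ℝ) / (k + m)) = KF c
      rw [h2, Real.sqrt_sq (kf_nonneg c)]
  · rintro c ⟨h0, h1, hF, f, g₁, g₂, E₁, E₂, hne⟩ c' ⟨h0', h1', hF', f', g₁', g₂', E₁', E₂', hne'⟩ he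
    rcases lt_trichotomy c c' with h | h | h
    · exact (inj h0 h h1' hF' he E₁).elim
    · exact h
    · exact (inj h0' h h1 hF he.symm E₁').elim

end Pool.Agent.Helper23.KU
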