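import Mathlib

/-!
# KR, piece E2: the circle `|z| = c`
-/

set_option autoImplicit false

namespace Pool.Agent.Helper23.KU

open Metric

theorem h15_one_sub_sq (w : ℂ) : 1 - 2 * ‖w‖ ≤ ‖1 - w‖ ^ 2 := by
  have h := norm_sub_norm_le (1 : ℂ) w
  rw [norm_one] at h
  nlinarith [sq_nonneg (‖1 - w‖ - 1)]

/-- E2. the circle `|z| = c` -/
theorem inner_circle {c κ C : ℝ} {N P Q : ℂ → ℂ} {k u y : ℂ → ℂ}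
    (hN : ContinuousOn N (sphere (0 : ℂ) c)) (hP : ContinuousOn P (sphere (0 : ℂ) c))
    (hQ : ContinuousOn Q (sphere (0 : ℂ) c)) (hu : ContinuousOn u (sphere (0 : ℂ) c))
    (hk : ContinuousOn k (sphere (0 : ℂ) c))
    (hk1 : ∀ z : ℂ, ‖z‖ = c → ‖k z‖ = ‖P z‖ ^ 2 - ‖N z‖ ^ 2)
    (hku : ∀ z : ℂ, ‖z‖ = c → ‖u z‖ ≤ C * ‖k z‖) (hky : ∀ z : ℂ, ‖z‖ = c → ‖y z‖ ≤ C * ‖k z‖) :
    ∃ t₀ > 0, ∀ τ : ℂ, ‖τ‖ ≤ t₀ → ∀ z : ℂ, ‖z‖ = c →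
      ‖N z - τ * (Q z * u z)‖ ≤ ‖P z * (1 - (starRingEnd ℂ) τ * y z)‖ := by
  have hcp : IsCompact (sphere (0 : ℂ) c) := isCompact_sphere _ _
  obtain ⟨M1, h1⟩ := hcp.exists_bound_of_continuousOn hN
  obtain ⟨M2, h2⟩ := hcp.exists_bound_of_continuousOn hP
  obtain ⟨M3, h3⟩ := hcp.exists_bound_of_continuousOn hQ
  obtain ⟨M4, h4⟩ := hcp.exists_bound_of_continuousOn hu
  obtain ⟨M, hM0, hM1, hM2, hM3, hM4, hMC⟩ : ∃ M : ℝ, 0 ≤ M ∧ M1 ≤ M ∧ M2 ≤ M ∧ M3 ≤ M ∧ M4 ≤ M ∧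
      C ≤ M :=
    ⟨max 0 (max M1 (max M2 (max M3 (max M4 C)))), by simp, by simp, by simp, by simp, by simp,
      by simp⟩
  refine ⟨1 / (4 * M ^ 3 + M ^ 4 + 1), by positivity, ?_⟩
  intro τ hτ z hz
  have hzs : z ∈ sphere (0 : ℂ) c := by simpa using hz
  have a1 : ‖N z‖ ≤ M := (h1 z hzs).trans hM1
  have a2 : ‖P z‖ ≤ M := (h2 z hzs).trans hM2
  have a3 : ‖Q z‖ ≤ M := (h3 z hzs).trans hM3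
  have a4 : ‖u z‖ ≤ M := (h4 z hzs).trans hM4
  have k0 : 0 ≤ ‖k z‖ := norm_nonneg _
  have a5 : ‖u z‖ ≤ M * ‖k z‖ := (hku z hz).trans (mul_le_mul_of_nonneg_right hMC k0)
  have a6 : ‖y z‖ ≤ M * ‖k z‖ := (hky z hz).trans (mul_le_mul_of_nonneg_right hMC k0)
  have hpos : (0 : ℝ) < 4 * M ^ 3 + M ^ 4 + 1 := by positivity
  have t0 : 0 ≤ ‖τ‖ := norm_nonneg _
  have t1 : ‖τ‖ * (4 * M ^ 3 + M ^ 4 + 1) ≤ 1 := by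
    have := mul_le_mul_of_nonneg_right hτ hpos.le
    rwa [one_div, inv_mul_cancel₀ hpos.ne'] at this
  have t2 : ‖τ‖ ≤ 1 := by nlinarith [pow_nonneg hM0 3, pow_nonneg hM0 4]
  -- the left side
  have e1 : ‖N z - τ * (Q z * u z)‖ ≤ ‖N z‖ + ‖τ‖ * (‖Q z‖ * ‖u z‖) := by
    refine (norm_sub_le _ _).trans (le_of_eq ?_)
    rw [norm_mul, norm_mul]
  have e2 : ‖N z - τ * (Q z * u z)‖ ^ 2 ≤ ‖N z‖ ^ 2 + ‖τ‖ * ‖k z‖ * (2 * M ^ 3 + M ^ 4) := by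
    have b0 : 0 ≤ ‖Q z‖ * ‖u z‖ := by positivity
    have b1 : ‖Q z‖ * ‖u z‖ ≤ M * (M * ‖k z‖) := mul_le_mul a3 a5 (norm_nonneg _) hM0
    have b2 : ‖Q z‖ * ‖u z‖ ≤ M * M := mul_le_mul a3 a4 (norm_nonneg _) hM0
    have b3 : ‖N z‖ * (‖Q z‖ * ‖u z‖) ≤ M * (M * (M * ‖k z‖)) := mul_le_mul a1 b1 b0 hM0
    have b4 : (‖Q z‖ * ‖u z‖) * (‖Q z‖ * ‖u z‖) ≤ (M * (M * ‖k z‖)) * (M * M) :=
      mul_le_mul b1 b2 b0 (by positivity)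
    have b5 : ‖τ‖ ^ 2 ≤ ‖τ‖ := by nlinarith
    calc ‖N z - τ * (Q z * u z)‖ ^ 2 ≤ (‖N z‖ + ‖τ‖ * (‖Q z‖ * ‖u z‖)) ^ 2 :=
          pow_le_pow_left₀ (norm_nonneg _) e1 2
      _ = ‖N z‖ ^ 2 + 2 * ‖τ‖ * (‖N z‖ * (‖Q z‖ * ‖u z‖)) +
          ‖τ‖ ^ 2 * ((‖Q z‖ * ‖u z‖) * (‖Q z‖ * ‖u z‖)) := by ring
      _ ≤ ‖N z‖ ^ 2 + 2 * ‖τ‖ * (M * (M * (M * ‖k z‖))) +
          ‖τ‖ * ((M * (M * ‖k z‖)) * (M * M)) := by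
          have c1 := mul_le_mul_of_nonneg_left b3 (by positivity : 0 ≤ 2 * ‖τ‖)
          have c2 : ‖τ‖ ^ 2 * ((‖Q z‖ * ‖u z‖) * (‖Q z‖ * ‖u z‖)) ≤
              ‖τ‖ * ((M * (M * ‖k z‖)) * (M * M)) :=
            mul_le_mul b5 b4 (by positivity) t0
          linarith
      _ = ‖N z‖ ^ 2 + ‖τ‖ * ‖k z‖ * (2 * M ^ 3 + M ^ 4) := by ring
  -- the right side
  have e3 : ‖P z‖ ^ 2 - 2 * M ^ 3 * (‖τ‖ * ‖k z‖) ≤ ‖P z * (1 - (starRingEnd ℂ) τ * y z)‖ ^ 2 := by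
    have b1 := h15_one_sub_sq ((starRingEnd ℂ) τ * y z)
    rw [norm_mul, RCLike.norm_conj] at b1
    have b2 : ‖P z‖ ^ 2 ≤ M ^ 2 := pow_le_pow_left₀ (norm_nonneg _) a2 2
    have b3 : ‖τ‖ * ‖y z‖ ≤ ‖τ‖ * (M * ‖k z‖) := mul_le_mul_of_nonneg_left a6 t0
    have b4 : ‖P z‖ ^ 2 * (‖τ‖ * ‖y z‖) ≤ M ^ 2 * (‖τ‖ * (M * ‖k z‖)) :=
      mul_le_mul b2 b3 (by positivity) (by positivity)
    have b5 := mul_le_mul_of_nonneg_left b1 (by positivity : 0 ≤ ‖P z‖ ^ 2)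
    rw [norm_mul, mul_pow]
    nlinarith
  have e4 : ‖τ‖ * ‖k z‖ * (4 * M ^ 3 + M ^ 4) ≤ ‖k z‖ := by
    have : ‖τ‖ * (4 * M ^ 3 + M ^ 4) ≤ 1 := by nlinarith
    nlinarith
  have e5 := hk1 z hz
  have e6 : ‖N z - τ * (Q z * u z)‖ ^ 2 ≤ ‖P z * (1 - (starRingEnd ℂ) τ * y z)‖ ^ 2 := by
    nlinarith
  exact (pow_le_pow_iff_left₀ (norm_nonneg _) (norm_nonneg _) two_ne_zero).1 e6

end Pool.Agent.Helper23.KU
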