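import Pool.Agent.Helper54.KR.Rat
import Pool.Agent.Helper8.KR.Inj
import Pool.Agent.Helper15.KR.Exc

/-!
# KR, piece L: countably many exceptional radii
-/

set_option autoImplicit false

namespace Pool.Agent.Helper23.KU

open Polynomial Filter Topology Metric MeasureTheory Set
open Pool.Agent.Helper23.KB (Sph Dom KF Ext sq area_series ms_series kf_le kf_dn kf_nonneg int_cont)

/-- L. countably many exceptional radii -/
theorem exc_countable :
    {c : ℝ | 0 < c ∧ c < 1 ∧ KF c < 1 ∧ ∃ f g₁ g₂ : ℂ → ℂ, Ext c f g₁ ∧ Ext c f g₂ ∧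
      ¬ ∃ α : ℝ, ∀ z ∈ ball (0 : ℂ) 1, g₂ z = Complex.exp (α * Complex.I) * g₁ z}.Countable :=
  exc_countable_of (fun h0 h1 _ _ h => rat_all h0 h1 h)
    (fun h0 hcc h1 hF heq _ _ h => inj_of_ext h0 hcc h1 hF heq h)

end Pool.Agent.Helper23.KU
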